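import Pool.Agent.LE.StmtsC

/-!
# Row BEN: the numbers of the Besicovitch step
-/

set_option autoImplicit false

noncomputable section

namespace Pool.Agent.LE.H15C

open Pool.Agent.LE

/-- BEN -/
theorem ben : BenStmt := by
  intro d C κ hd hC hκ hκ1
  obtain ⟨e, rfl⟩ : ∃ e, d = e + 1 := ⟨d - 1, by omega⟩
  set K1 : ℝ := (2 ^ (e + 1) + 2 * 17 ^ (e + 1) * (17 * 5 ^ (e + 1)) ^ e) *
    (4 * 5 ^ (e + 1) * C ^ ((e + 1) ^ 2 + 4 * (e + 1))) with hK1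
  have hK1pos : 0 < K1 := by positivity
  set K : ℝ := 2 * K1 * (16 / κ) ^ ((e + 1) ^ 2) with hK
  have hKpos : 0 < K := by positivity
  set cs : ℝ := K + 1 with hcs
  have hcs1 : 1 ≤ cs := by linarith
  have hcs0 : 0 < cs := by linarith
  set A : ℝ := (κ / (16 * cs)) ^ (e + 1) with hA
  have hA0 : 0 < A := by positivity
  have hx1 : κ / (16 * cs) ≤ 1 := by
    rw [div_le_one (by positivity)]
    linarith
  have hA1 : A ≤ 1 := pow_le_one₀ (by positivity) hx1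
  have hAx : A ≤ κ / (16 * cs) := by
    rw [hA]
    exact pow_le_of_le_one (by positivity) hx1 (by omega)
  have h5 : (1 : ℝ) ≤ 5 ^ (e + 1) := one_le_pow₀ (by norm_num)
  set M : ℕ := ⌈16 * 5 ^ (e + 1) / A⌉₊ with hM
  have hM1 : 16 * 5 ^ (e + 1) / A ≤ (M : ℝ) := Nat.le_ceil _
  have hM2 : (M : ℝ) < 16 * 5 ^ (e + 1) / A + 1 := Nat.ceil_lt_add_one (by positivity)
  have hMA1 : 16 * 5 ^ (e + 1) ≤ (M : ℝ) * A := by rwa [div_le_iff₀ hA0] at hM1
  have hMA2 : (M : ℝ) * A ≤ 17 * 5 ^ (e + 1) := by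
    have h1 : (M : ℝ) * A ≤ (16 * 5 ^ (e + 1) / A + 1) * A :=
      mul_le_mul_of_nonneg_right hM2.le hA0.le
    have h2 : (16 * 5 ^ (e + 1) / A + 1) * A = 16 * 5 ^ (e + 1) + A := by field_simp
    linarith
  have hMr : (1 : ℝ) ≤ M := by
    have h1 : (M : ℝ) * A ≤ M := by nlinarith [Nat.cast_nonneg (α := ℝ) M]
    linarith
  have hM0 : (0 : ℝ) < M := by linarith
  have hM1' : 1 ≤ M := by exact_mod_cast hMr
  refine ⟨cs, M, A / (32 * 3 ^ (e + 1)), hcs1, hM1', by positivity, ?_, ?_, ?_⟩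
  · rw [div_le_one (by positivity)]
    have : (1 : ℝ) ≤ 3 ^ (e + 1) := one_le_pow₀ (by norm_num)
    linarith
  · have h1 : 16 * cs / κ = 1 / (κ / (16 * cs)) := by rw [one_div_div]
    rw [h1]
    have h2 : 1 / (κ / (16 * cs)) ≤ 1 / A := one_div_le_one_div_of_le hA0 hAx
    have h3 : 1 / A ≤ M := by
      rw [div_le_iff₀ hA0]
      linarith
    exact h2.trans h3
  · have t1 : 4 * (A / (32 * 3 ^ (e + 1))) * 3 ^ (e + 1) = A / 8 := by
      have : (3 : ℝ) ^ (e + 1) ≠ 0 := by positivity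
      field_simp
      norm_num
    have t2 : 2 * 5 ^ (e + 1) / (M : ℝ) ≤ A / 8 := by
      rw [div_le_div_iff₀ hM0 (by norm_num)]
      linarith
    -- the third term
    have u1 : (8 * (M : ℝ) + 9) ^ (e + 1) / M ≤ 17 ^ (e + 1) * (M : ℝ) ^ e := by
      rw [div_le_iff₀ hM0]
      calc (8 * (M : ℝ) + 9) ^ (e + 1) ≤ (17 * M) ^ (e + 1) := by
            gcongr
            linarith
        _ = 17 ^ (e + 1) * (M : ℝ) ^ e * M := by rw [mul_pow, pow_succ (M : ℝ)]; ring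
    have u2 : (M : ℝ) ^ e * A ^ e ≤ (17 * 5 ^ (e + 1)) ^ e := by
      rw [← mul_pow]
      gcongr
    have u3 : A ^ e ≤ 1 := pow_le_one₀ hA0.le hA1
    have hAe : 0 < A ^ e := by positivity
    set Q : ℝ := 4 * 5 ^ (e + 1) * (C / cs) ^ ((e + 1) ^ 2 + 4 * (e + 1)) with hQ
    have hQ0 : 0 ≤ Q := by positivity
    have u4 : (2 ^ (e + 1) + 2 * (8 * (M : ℝ) + 9) ^ (e + 1) / M) * Q * A ^ e ≤
        (2 ^ (e + 1) + 2 * 17 ^ (e + 1) * (17 * 5 ^ (e + 1)) ^ e) * Q := by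
      have v1 : (2 ^ (e + 1) + 2 * (8 * (M : ℝ) + 9) ^ (e + 1) / M) * A ^ e ≤
          2 ^ (e + 1) + 2 * 17 ^ (e + 1) * (17 * 5 ^ (e + 1)) ^ e := by
        have v2 : 2 * (8 * (M : ℝ) + 9) ^ (e + 1) / M * A ^ e ≤
            2 * 17 ^ (e + 1) * ((M : ℝ) ^ e * A ^ e) := by
          calc 2 * (8 * (M : ℝ) + 9) ^ (e + 1) / M * A ^ e
              = 2 * ((8 * (M : ℝ) + 9) ^ (e + 1) / M) * A ^ e := by ring
            _ ≤ 2 * (17 ^ (e + 1) * (M : ℝ) ^ e) * A ^ e := by gcongr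
            _ = 2 * 17 ^ (e + 1) * ((M : ℝ) ^ e * A ^ e) := by ring
        have v3 : 2 * 17 ^ (e + 1) * ((M : ℝ) ^ e * A ^ e) ≤
            2 * 17 ^ (e + 1) * (17 * 5 ^ (e + 1)) ^ e := by gcongr
        have v4 : (2 : ℝ) ^ (e + 1) * A ^ e ≤ 2 ^ (e + 1) := by
          have : (0 : ℝ) < 2 ^ (e + 1) := by positivity
          nlinarith
        rw [add_mul]
        linarith
      calc (2 ^ (e + 1) + 2 * (8 * (M : ℝ) + 9) ^ (e + 1) / M) * Q * A ^ e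
          = ((2 ^ (e + 1) + 2 * (8 * (M : ℝ) + 9) ^ (e + 1) / M) * A ^ e) * Q := by ring
        _ ≤ _ := mul_le_mul_of_nonneg_right v1 hQ0
    have u5 : (2 ^ (e + 1) + 2 * 17 ^ (e + 1) * (17 * 5 ^ (e + 1)) ^ e) * Q =
        K1 / cs ^ ((e + 1) ^ 2 + 4 * (e + 1)) := by
      rw [hQ, hK1, div_pow]
      ring
    have u6 : 2 * K1 < A ^ (e + 1) * cs ^ ((e + 1) ^ 2 + 4 * (e + 1)) := by
      have w1 : A ^ (e + 1) * cs ^ ((e + 1) ^ 2 + 4 * (e + 1)) =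
          (κ / 16) ^ ((e + 1) ^ 2) * cs ^ (4 * (e + 1)) := by
        rw [hA, ← pow_mul, show (e + 1) * (e + 1) = (e + 1) ^ 2 by ring, pow_add cs,
          show κ / (16 * cs) = κ / 16 / cs by rw [div_div], div_pow (κ / 16) cs]
        field_simp
      have w2 : cs ≤ cs ^ (4 * (e + 1)) := le_self_pow₀ hcs1 (by omega)
      have w3 : (0 : ℝ) < (κ / 16) ^ ((e + 1) ^ 2) := by positivity
      have w4 : (κ / 16) ^ ((e + 1) ^ 2) * K = 2 * K1 := by
        rw [hK]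
        have w5 : (κ / 16) ^ ((e + 1) ^ 2) * (16 / κ) ^ ((e + 1) ^ 2) = 1 := by
          rw [← mul_pow]
          have : κ / 16 * (16 / κ) = 1 := by field_simp
          rw [this, one_pow]
        calc (κ / 16) ^ ((e + 1) ^ 2) * (2 * K1 * (16 / κ) ^ ((e + 1) ^ 2))
            = 2 * K1 * ((κ / 16) ^ ((e + 1) ^ 2) * (16 / κ) ^ ((e + 1) ^ 2)) := by ring
          _ = 2 * K1 := by rw [w5, mul_one]
      rw [w1, ← w4]
      apply mul_lt_mul_of_pos_left _ w3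
      linarith
    have u7 : K1 / cs ^ ((e + 1) ^ 2 + 4 * (e + 1)) < A ^ e * (A / 2) := by
      rw [div_lt_iff₀ (by positivity)]
      have : A ^ e * (A / 2) * cs ^ ((e + 1) ^ 2 + 4 * (e + 1)) =
          (A ^ (e + 1) * cs ^ ((e + 1) ^ 2 + 4 * (e + 1))) / 2 := by rw [pow_succ A]; ring
      rw [this]
      linarith
    have t3 : (2 ^ (e + 1) + 2 * (8 * (M : ℝ) + 9) ^ (e + 1) / M) * Q < A / 2 := by
      have x1 : (2 ^ (e + 1) + 2 * (8 * (M : ℝ) + 9) ^ (e + 1) / M) * Q * A ^ e <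
          A / 2 * A ^ e := by
        calc _ ≤ _ := u4
          _ = _ := u5
          _ < _ := u7
          _ = _ := by ring
      exact lt_of_mul_lt_mul_right x1 hAe.le
    rw [t1]
    linarith

end Pool.Agent.LE.H15C
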